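import Pool.Agent.R755.Bal.Bary
import Pool.Agent.H460BZ.Body

/-!
# Concentration, cylinders and tails for the standard Gaussian measure
-/

set_option autoImplicit false

namespace Pool.Agent.Helper826_VB

open MeasureTheory ProbabilityTheory Set
open scoped ENNReal Pointwise InnerProductSpace
open Pool.Agent.H320R2.LD
open Pool.Agent.H902R3.ZA (gm)

abbrev EE (n : ℕ) := EuclideanSpace ℝ (Fin n)

/-- Gaussian concentration around a closed set, product form. -/
theorem conc {n : ℕ} (A : Set (EE n)) (hA : IsClosed A) (p : ℝ) (hp : 0 < p)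
    (hpA : p ≤ (stdGaussian (EE n) A).toReal) (r : ℝ) (hr : 0 ≤ r) :
    p * (1 - (stdGaussian (EE n) (Metric.cthickening r A)).toReal) ≤ Real.exp (-(r ^ 2 / 4)) := by
  have hne : A.Nonempty := by
    by_contra h
    rw [Set.not_nonempty_iff_eq_empty] at h
    rw [h] at hpA
    simp at hpA
    linarith
  have hms : Measurable (WithLp.toLp 2 : (Fin n → ℝ) → EE n) := by fun_prop
  set φ : (Fin n → ℝ) → ℝ := fun x => (r / 2) * Metric.infDist (WithLp.toLp 2 x : EE n) A with hφ
  have hmφ : Measurable φ := by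
    have h1 : Continuous fun y : EE n => Metric.infDist y A := Metric.continuous_infDist_pt A
    have h2 : Measurable fun x : Fin n → ℝ => Metric.infDist (WithLp.toLp 2 x : EE n) A :=
      h1.measurable.comp hms
    exact h2.const_mul _
  have hlip : ∀ x y, φ y - φ x ≤ (r / 2) * nrm (x - y) := by
    intro x y
    rw [Pool.Agent.R755.Bal.nrm_eq, hφ]
    simp only
    rw [← mul_sub]
    apply mul_le_mul_of_nonneg_left _ (by positivity)
    have := Metric.infDist_le_infDist_add_dist (s := A) (x := (WithLp.toLp 2 y : EE n)) (y := WithLp.toLp 2 x)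
    rw [dist_comm]
    linarith
  have key := MGF.main_fin n φ hmφ (r / 2) hlip
  set A' : Set (Fin n → ℝ) := WithLp.toLp 2 ⁻¹' A with hA'
  set C' : Set (Fin n → ℝ) := WithLp.toLp 2 ⁻¹' (Metric.cthickening r A)ᶜ with hC'
  have hmA' : MeasurableSet A' := hms hA.measurableSet
  have hmC' : MeasurableSet C' := hms Metric.isClosed_cthickening.measurableSet.compl
  have e1 : gam (Fin n) A' ≤ ∫⁻ x, ENNReal.ofReal (Real.exp (-φ x)) ∂(gam (Fin n)) := by
    rw [← lintegral_indicator_one hmA']
    apply lintegral_mono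
    intro x
    by_cases hx : x ∈ A'
    · have : φ x = 0 := by
        rw [hφ]
        simp only
        rw [Metric.infDist_zero_of_mem (s := A) hx, mul_zero]
      simp [hx, this]
    · simp [hx]
  have e2 : ENNReal.ofReal (Real.exp (r ^ 2 / 2)) * gam (Fin n) C' ≤
      ∫⁻ x, ENNReal.ofReal (Real.exp (φ x)) ∂(gam (Fin n)) := by
    rw [← lintegral_indicator_one hmC', ← lintegral_const_mul _ (measurable_one.indicator hmC')]
    apply lintegral_mono
    intro x
    by_cases hx : x ∈ C'
    · simp only [Pi.one_apply, hx, indicator_of_mem, mul_one]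
      apply ENNReal.ofReal_le_ofReal
      apply Real.exp_le_exp.mpr
      have h1 : r ≤ Metric.infDist (WithLp.toLp 2 x : EE n) A := by
        by_contra hlt
        push Not at hlt
        apply hx
        show Metric.infEDist (WithLp.toLp 2 x : EE n) A ≤ ENNReal.ofReal r
        have h3 : Metric.infEDist (WithLp.toLp 2 x : EE n) A ≠ ⊤ := Metric.infEDist_ne_top hne
        rw [← ENNReal.ofReal_toReal h3]
        exact ENNReal.ofReal_le_ofReal hlt.le
      rw [hφ]
      simp only
      nlinarith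
    · simp [hx]
  have e3 : gam (Fin n) A' = stdGaussian (EE n) A := by
    rw [← Pool.Agent.R755.Bal.gam_map, Measure.map_apply hms hA.measurableSet]
  have e4 : gam (Fin n) C' = stdGaussian (EE n) (Metric.cthickening r A)ᶜ := by
    rw [← Pool.Agent.R755.Bal.gam_map,
      Measure.map_apply hms Metric.isClosed_cthickening.measurableSet.compl]
  rw [e3] at e1
  rw [e4] at e2
  have e5 := (mul_le_mul' e1 e2).trans key
  have e6 := ENNReal.toReal_mono ENNReal.ofReal_ne_top e5
  rw [ENNReal.toReal_mul, ENNReal.toReal_mul, ENNReal.toReal_ofReal (Real.exp_pos _).le,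
    ENNReal.toReal_ofReal (Real.exp_pos _).le] at e6
  have e7 : (stdGaussian (EE n) (Metric.cthickening r A)ᶜ).toReal =
      1 - (stdGaussian (EE n) (Metric.cthickening r A)).toReal :=
    probReal_compl_eq_one_sub Metric.isClosed_cthickening.measurableSet
  rw [e7] at e6
  set m := (stdGaussian (EE n) (Metric.cthickening r A)).toReal with hm
  set a := (stdGaussian (EE n) A).toReal with ha
  have hm1 : m ≤ 1 := by
    have := ENNReal.toReal_mono ENNReal.one_ne_top (prob_le_one (μ := stdGaussian (EE n)) (s := Metric.cthickening r A))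
    simpa using this
  have h8 : 0 ≤ 1 - m := by linarith
  have h9 : p * (Real.exp (r ^ 2 / 2) * (1 - m)) ≤ Real.exp ((r / 2) ^ 2) :=
    le_trans (mul_le_mul_of_nonneg_right hpA (by positivity)) e6
  have h10 : Real.exp (r ^ 2 / 2) * Real.exp (-(r ^ 2 / 4)) = Real.exp ((r / 2) ^ 2) := by
    rw [← Real.exp_add]; congr 1; ring
  rw [← h10] at h9
  have h12 : 0 < Real.exp (r ^ 2 / 2) := Real.exp_pos _
  have h13 : Real.exp (r ^ 2 / 2) * (p * (1 - m)) ≤ Real.exp (r ^ 2 / 2) * Real.exp (-(r ^ 2 / 4)) := by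
    linarith
  exact le_of_mul_le_mul_left h13 h12

/-- The part of a cylinder in direction `e` lying in a slab orthogonal to `e`. -/
theorem cyl {M : ℕ} (e : EE (M + 1)) (he : ‖e‖ = 1) (A P : Set (EE (M + 1)))
    (hA : MeasurableSet A) (hP : MeasurableSet P) (hAP : A ⊆ P)
    (hcyl : ∀ x ∈ P, ∀ s : ℝ, x + s • e ∈ P) (I : Set ℝ) (hAI : ∀ x ∈ A, ⟪e, x⟫_ℝ ∈ I) :
    stdGaussian (EE (M + 1)) A ≤ gaussianReal 0 1 I * stdGaussian (EE (M + 1)) P := by
  classical
  obtain ⟨b, hb⟩ := Orthonormal.exists_orthonormalBasis_extension_of_card_eq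
    (𝕜 := ℝ) (E := EE (M + 1)) (ι := Fin (M + 1)) (by simp) (v := fun _ => e) (s := {0}) (by
      constructor
      · rintro ⟨i, hi⟩; simpa using he
      · rintro ⟨i, hi⟩ ⟨j, hj⟩ hij
        exfalso; apply hij
        rw [mem_singleton_iff] at hi hj
        exact Subtype.ext (hi.trans hj.symm))
  have hb0 : b 0 = e := hb 0 rfl
  have f1 := Pool.Agent.H460BZ.fubini M b A hA
  have f2 := Pool.Agent.H460BZ.fubini M b P hP
  rw [hb0] at f1 f2
  have hmeas : Measurable (fun q : ℝ × (Fin M → ℝ) => q.1 • e + ∑ j, q.2 j • b (Fin.succ j)) := by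
    fun_prop
  have mm : Measurable (fun y : Fin M → ℝ =>
      gaussianReal 0 1 {z : ℝ | z • e + ∑ j, y j • b (Fin.succ j) ∈ P}) :=
    measurable_measure_prodMk_right (hmeas hP)
  rw [f1, f2, ← lintegral_const_mul _ mm]
  refine lintegral_mono (fun y => ?_)
  set w := ∑ j, y j • b (Fin.succ j) with hw
  have hew : ⟪e, w⟫_ℝ = 0 := by
    rw [hw, inner_sum]
    apply Finset.sum_eq_zero
    intro j _
    rw [real_inner_smul_right, ← hb0, b.inner_eq_ite]
    simp [(Fin.succ_ne_zero j).symm]
  have hin : ∀ z : ℝ, ⟪e, z • e + w⟫_ℝ = z := by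
    intro z
    rw [inner_add_right, hew, real_inner_smul_right, real_inner_self_eq_norm_sq, he]
    ring
  have hsub : {z : ℝ | z • e + w ∈ A} ⊆ I := by
    intro z hz
    have := hAI _ hz
    rwa [hin] at this
  by_cases hne : ({z : ℝ | z • e + w ∈ A}).Nonempty
  · obtain ⟨z0, hz0⟩ := hne
    have huniv : {z : ℝ | z • e + w ∈ P} = univ := by
      apply eq_univ_of_forall
      intro z
      have h1 := hcyl _ (hAP hz0) (z - z0)
      have h2 : z0 • e + w + (z - z0) • e = z • e + w := by
        rw [sub_smul]; abel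
      rw [h2] at h1
      exact h1
    show gaussianReal 0 1 {z : ℝ | z • e + w ∈ A} ≤
      gaussianReal 0 1 I * gaussianReal 0 1 {z : ℝ | z • e + w ∈ P}
    rw [huniv, measure_univ, mul_one]
    exact measure_mono hsub
  · rw [Set.not_nonempty_iff_eq_empty] at hne
    show gaussianReal 0 1 {z : ℝ | z • e + w ∈ A} ≤ _
    rw [hne, measure_empty]
    exact zero_le

theorem Icc_le (a : ℝ) (ha : 0 ≤ a) : (gaussianReal 0 1 (Icc (-a) a)).toReal ≤ a := by
  rw [Pool.Agent.H460BZ.meas_Icc _ _ (by linarith)]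
  have h3 : (∫ x in (-a)..a, Pool.Agent.H460BZ.φ x) ≤ ∫ x in (-a)..a, (1 / 2 : ℝ) := by
    apply intervalIntegral.integral_mono_on (by linarith)
    · exact Pool.Agent.H460BZ.φ_cont.intervalIntegrable _ _
    · exact intervalIntegrable_const
    · intro x _
      exact Pool.Agent.R755.Bal.pdf_le x
  rw [intervalIntegral.integral_const] at h3
  have h4 : 0 ≤ ∫ x in (-a)..a, Pool.Agent.H460BZ.φ x :=
    intervalIntegral.integral_nonneg (by linarith) fun x _ => Pool.Agent.H460BZ.φ_nonneg x
  rw [ENNReal.toReal_ofReal h4]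
  simp only [smul_eq_mul] at h3
  linarith

/-- A Gaussian tail bound by Chebyshev. -/
theorem tail {n : ℕ} (θ : EE n) (hθ : ‖θ‖ = 1) :
    (stdGaussian (EE n) {x | 15 ≤ |⟪θ, x⟫_ℝ|}).toReal ≤ 1 / 225 := by
  have h1 := Pool.Agent.R755.Bal.map_inner θ
  rw [hθ] at h1
  norm_num at h1
  have hmeas : Measurable fun x : EE n => ⟪θ, x⟫_ℝ := by fun_prop
  have hms : MeasurableSet {y : ℝ | 15 ≤ |y|} := measurableSet_le measurable_const (by fun_prop)
  have h2 : stdGaussian (EE n) {x | 15 ≤ |⟪θ, x⟫_ℝ|} = gaussianReal 0 1 {y : ℝ | 15 ≤ |y|} := by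
    rw [← h1, Measure.map_apply hmeas hms]
    rfl
  rw [h2]
  have h3 := meas_ge_le_variance_div_sq (μ := gaussianReal 0 1) (X := id)
    (memLp_id_gaussianReal 2) (c := 15) (by norm_num)
  rw [variance_id_gaussianReal] at h3
  simp only [id, integral_id_gaussianReal, sub_zero] at h3
  have h4 := ENNReal.toReal_mono ENNReal.ofReal_ne_top h3
  rw [ENNReal.toReal_ofReal (by positivity)] at h4
  norm_num at h4
  norm_num
  exact h4

end Pool.Agent.Helper826_VB
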