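import Pool.Agent.Helper826_VB.A
import Pool.Agent.R755.Bal.Step

/-!
# A dilate of a convex body with Gaussian barycenter at the origin has large Gaussian measure
-/

set_option autoImplicit false

namespace Pool.Agent.Helper826_VB

open MeasureTheory ProbabilityTheory Set
open scoped ENNReal Pointwise InnerProductSpace

/-- A thin direction: a unit vector `θ` and `a ≥ p` with the ball of radius `a/2` inside `V` and
`V` below height `a` in direction `θ`. -/
theorem thin {M : ℕ} (V : Set (EE (M + 1))) (hV : IsCompact V) (hc : Convex ℝ V) (p : ℝ)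
    (hp : 0 < p) (hpV : p = (stdGaussian (EE (M + 1)) V).toReal)
    (hb : ∫ x in V, x ∂(stdGaussian (EE (M + 1))) = 0) :
    ∃ (θ : EE (M + 1)) (a : ℝ), ‖θ‖ = 1 ∧ p ≤ a ∧ Metric.ball 0 (a / 2) ⊆ V ∧
      ∀ x ∈ V, ⟪θ, x⟫_ℝ ≤ a := by
  have hne : (Vᶜ).Nonempty := by
    rw [Set.nonempty_compl]
    intro h
    rw [h] at hV
    exact noncompact_univ (EE (M + 1)) hV
  have hVne : V.Nonempty := by
    by_contra h
    rw [Set.not_nonempty_iff_eq_empty] at h
    rw [h] at hpV
    simp at hpV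
    linarith
  set w := Metric.infDist (0 : EE (M + 1)) Vᶜ with hw
  have hball : Metric.ball 0 w ⊆ V := by
    intro x hx
    by_contra hxV
    have h1 : w ≤ dist 0 x := Metric.infDist_le_dist_of_mem hxV
    rw [Metric.mem_ball, dist_comm] at hx
    linarith
  have hwp : p / 2 ≤ w := by
    apply le_of_forall_lt
    intro c hcp
    have h1 := Pool.Agent.R755.Bal.ball_sub V hV.isClosed hc p hpV hp 0 (by rw [hb, smul_zero])
      ((c + p / 2) / 2) (by linarith)
    have h2 : (c + p / 2) / 2 ≤ w := by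
      rw [hw, Metric.le_infDist hne]
      intro y hy
      by_contra hlt
      push Not at hlt
      exact hy (h1 (by rw [Metric.mem_closedBall, dist_comm]; exact hlt.le))
    linarith
  have hw0 : 0 < w := by linarith
  obtain ⟨z, hzV, hz⟩ := (Metric.infDist_lt_iff hne).mp (show w < 2 * w by linarith)
  obtain ⟨f, s, hf1, hf2⟩ := geometric_hahn_banach_closed_point hc hV.isClosed hzV
  set v : EE (M + 1) := (InnerProductSpace.toDual ℝ (EE (M + 1))).symm f with hv
  have hfv : ∀ x, f x = ⟪v, x⟫_ℝ := by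
    intro x
    rw [hv, InnerProductSpace.toDual_symm_apply]
  have hv0 : v ≠ 0 := by
    intro h0
    obtain ⟨a, ha⟩ := hVne
    have h1 := hf1 a ha
    rw [hfv, h0, inner_zero_left] at h1
    rw [hfv, h0, inner_zero_left] at hf2
    linarith
  have hvn : 0 < ‖v‖ := norm_pos_iff.mpr hv0
  set θ : EE (M + 1) := ‖v‖⁻¹ • v with hθ
  have hθ1 : ‖θ‖ = 1 := by
    rw [hθ, norm_smul, norm_inv, norm_norm, inv_mul_cancel₀ hvn.ne']
  refine ⟨θ, 2 * w, hθ1, by linarith, ?_, ?_⟩
  · rw [mul_div_cancel_left₀ _ (two_ne_zero)]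
    exact hball
  · intro x hx
    have h1 : ⟪θ, x⟫_ℝ < ⟪θ, z⟫_ℝ := by
      rw [hθ, real_inner_smul_left, real_inner_smul_left]
      apply mul_lt_mul_of_pos_left _ (inv_pos.mpr hvn)
      rw [← hfv, ← hfv]
      exact (hf1 x hx).trans hf2
    have h2 : ⟪θ, z⟫_ℝ ≤ ‖θ‖ * ‖z‖ := real_inner_le_norm _ _
    rw [hθ1, one_mul] at h2
    rw [dist_zero_left] at hz
    linarith

/-- Half of the measure of `V` lies in the symmetric slab. -/
theorem half {M : ℕ} (V : Set (EE (M + 1))) (hV : MeasurableSet V) (p : ℝ)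
    (hpV : p = (stdGaussian (EE (M + 1)) V).toReal)
    (hb : ∫ x in V, x ∂(stdGaussian (EE (M + 1))) = 0) (θ : EE (M + 1)) (a : ℝ) (ha : 0 < a)
    (hθ : ∀ x ∈ V, ⟪θ, x⟫_ℝ ≤ a) :
    p / 2 ≤ (stdGaussian (EE (M + 1)) (V ∩ {x | ⟪θ, x⟫_ℝ ∈ Icc (-a) a})).toReal := by
  have hid : Integrable (fun x : EE (M + 1) => x) (stdGaussian (EE (M + 1))) :=
    IsGaussian.integrable_id
  have hidA : Integrable (fun x : EE (M + 1) => x) ((stdGaussian (EE (M + 1))).restrict V) :=
    hid.restrict
  have hinA : Integrable (fun x : EE (M + 1) => ⟪θ, x⟫_ℝ) ((stdGaussian (EE (M + 1))).restrict V) :=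
    hidA.const_inner θ
  have hint1 : ∫ x in V, ⟪θ, x⟫_ℝ ∂(stdGaussian (EE (M + 1))) = 0 := by
    rw [integral_inner hidA θ, hb, inner_zero_right]
  have hmr : ((stdGaussian (EE (M + 1))).restrict V).real univ = p := by
    rw [measureReal_restrict_apply MeasurableSet.univ, univ_inter, hpV]
    rfl
  set Y : EE (M + 1) → ℝ := fun x => a - ⟪θ, x⟫_ℝ with hY
  have hYi : Integrable Y ((stdGaussian (EE (M + 1))).restrict V) :=
    (integrable_const _).sub hinA
  have hintY : ∫ x in V, Y x ∂(stdGaussian (EE (M + 1))) = p * a := by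
    rw [hY, integral_sub (integrable_const _) hinA, integral_const, hint1, hmr, smul_eq_mul]
    ring
  have hY0 : 0 ≤ᵐ[(stdGaussian (EE (M + 1))).restrict V] Y := by
    rw [Filter.EventuallyLE, ae_restrict_iff' hV]
    filter_upwards with x hx
    have := hθ x hx
    simp only [hY, Pi.zero_apply]
    linarith
  have hmk := mul_meas_ge_le_integral_of_nonneg hY0 hYi (2 * a)
  rw [hintY] at hmk
  have hmk' : ((stdGaussian (EE (M + 1))).restrict V).real {x | 2 * a ≤ Y x} ≤ p / 2 := by
    have h1 : a * (2 * ((stdGaussian (EE (M + 1))).restrict V).real {x | 2 * a ≤ Y x}) ≤ a * p := by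
      calc a * (2 * ((stdGaussian (EE (M + 1))).restrict V).real {x | 2 * a ≤ Y x})
          = 2 * a * ((stdGaussian (EE (M + 1))).restrict V).real {x | 2 * a ≤ Y x} := by ring
        _ ≤ p * a := hmk
        _ = a * p := by ring
    have h2 := le_of_mul_le_mul_left h1 ha
    linarith
  have hms : MeasurableSet {x : EE (M + 1) | 2 * a ≤ Y x} := by
    apply measurableSet_le measurable_const
    rw [hY]; fun_prop
  have hsplit : ((stdGaussian (EE (M + 1))).restrict V).real {x | 2 * a ≤ Y x} +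
      ((stdGaussian (EE (M + 1))).restrict V).real {x | 2 * a ≤ Y x}ᶜ = p :=
    (measureReal_add_measureReal_compl hms).trans hmr
  have hcomp : ((stdGaussian (EE (M + 1))).restrict V).real {x | 2 * a ≤ Y x}ᶜ ≤
      (stdGaussian (EE (M + 1)) (V ∩ {x | ⟪θ, x⟫_ℝ ∈ Icc (-a) a})).toReal := by
    rw [measureReal_restrict_apply hms.compl]
    apply measureReal_mono _ (measure_ne_top _ _)
    rintro x ⟨hx1, hx2⟩
    simp only [mem_compl_iff, mem_ofPred_eq, not_le, hY] at hx1
    have := hθ x hx2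
    refine ⟨hx2, ?_, this⟩
    linarith
  linarith

theorem log_bd (A : ℝ) (hA : 1 ≤ A) : √(Real.log (400 * A)) ≤ 5 / 2 * A := by
  have h1 : Real.log (400 * A) ≤ 6 * A := by
    rw [Real.log_mul (by norm_num) (by linarith)]
    have h2 : Real.log 400 ≤ 6 := by
      have h3 : (400 : ℝ) = 20 ^ 2 := by norm_num
      rw [h3, Real.log_pow]
      have h4 : Real.log 20 ≤ 3 := by
        rw [Real.log_le_iff_le_exp (by norm_num)]
        have h5 : Real.exp 3 = Real.exp 1 ^ 3 := by
          rw [← Real.exp_nat_mul]; norm_num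
        rw [h5]
        have h6 := Real.exp_one_gt_d9
        calc (20 : ℝ) ≤ 2.7182818283 ^ 3 := by norm_num
          _ ≤ Real.exp 1 ^ 3 := by gcongr
      push_cast
      linarith
    have h3 := Real.log_le_sub_one_of_pos (show 0 < A by linarith)
    linarith
  apply Real.sqrt_le_iff.mpr
  constructor
  · linarith
  · nlinarith

/-- **Main estimate.** The dilate of `V` by the factor `105 / γ(V)` has measure at least `99/100`. -/
theorem dil {M : ℕ} (V : Set (EE (M + 1))) (hV : IsCompact V) (hc : Convex ℝ V) (p : ℝ)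
    (hp : 0 < p) (hpV : p = (stdGaussian (EE (M + 1)) V).toReal)
    (hb : ∫ x in V, x ∂(stdGaussian (EE (M + 1))) = 0) :
    99 / 100 ≤ (stdGaussian (EE (M + 1)) {x | (105 / p)⁻¹ • x ∈ V}).toReal := by
  have hp1 : p ≤ 1 := by
    rw [hpV]
    have := ENNReal.toReal_mono ENNReal.one_ne_top
      (prob_le_one (μ := stdGaussian (EE (M + 1))) (s := V))
    simpa using this
  obtain ⟨θ, a, hθ, hpa, hball, hup⟩ := thin V hV hc p hp hpV hb
  have ha : 0 < a := hp.trans_le hpa
  have hhalf := half V hV.isClosed.measurableSet p hpV hb θ a ha hup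
  set VS : Set (EE (M + 1)) := V ∩ {x | ⟪θ, x⟫_ℝ ∈ Icc (-a) a} with hVS
  have hcS : IsClosed {x : EE (M + 1) | ⟪θ, x⟫_ℝ ∈ Icc (-a) a} :=
    isClosed_Icc.preimage (by fun_prop)
  have hVSc : IsCompact VS := hV.inter_right hcS
  set L : Set (EE (M + 1)) := ((Submodule.span ℝ {θ} : Submodule ℝ (EE (M + 1))) :
    Set (EE (M + 1))) with hL
  have hLc : IsClosed L := Submodule.closed_of_finiteDimensional _
  set P : Set (EE (M + 1)) := VS + L with hP
  have hPc : IsClosed P := hLc.add_left_of_isCompact hVSc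
  have hVSP : VS ⊆ P := by
    intro x hx
    exact ⟨x, hx, 0, Submodule.zero_mem _, by simp⟩
  have hcyl : ∀ x ∈ P, ∀ s : ℝ, x + s • θ ∈ P := by
    rintro _ ⟨y, hy, l, hl, rfl⟩ s
    refine ⟨y, hy, l + s • θ, ?_, ?_⟩
    · exact Submodule.add_mem _ hl (Submodule.smul_mem _ _ (Submodule.mem_span_singleton_self θ))
    · simp only [add_assoc]
  have h1 := cyl θ hθ VS P hVSc.isClosed.measurableSet hPc.measurableSet hVSP hcyl (Icc (-a) a)
    (fun x hx => hx.2)
  have h2 := ENNReal.toReal_mono (ENNReal.mul_ne_top (measure_ne_top _ _) (measure_ne_top _ _)) h1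
  rw [ENNReal.toReal_mul] at h2
  have h3 := Icc_le a ha.le
  set q : ℝ := p / (2 * a) with hq
  have hq0 : 0 < q := by positivity
  have hqP : q ≤ (stdGaussian (EE (M + 1)) P).toReal := by
    rw [hq, div_le_iff₀ (by positivity)]
    have h4 : (gaussianReal 0 1 (Icc (-a) a)).toReal * (stdGaussian (EE (M + 1)) P).toReal ≤
        a * (stdGaussian (EE (M + 1)) P).toReal :=
      mul_le_mul_of_nonneg_right h3 ENNReal.toReal_nonneg
    linarith
  have hA1 : 1 ≤ a / p := by
    rw [le_div_iff₀ hp]; linarith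
  have hL0 : 0 < Real.log (400 * (a / p)) := by
    apply Real.log_pos; linarith
  set r : ℝ := 2 * √(Real.log (400 * (a / p))) with hr
  have hr0 : 0 ≤ r := by positivity
  have hconc := conc P hPc q hq0 hqP r hr0
  have hrexp : Real.exp (-(r ^ 2 / 4)) = q / 200 := by
    have h5 : r ^ 2 / 4 = Real.log (400 * (a / p)) := by
      rw [hr, mul_pow, Real.sq_sqrt hL0.le]; ring
    rw [h5, ← Real.log_inv, Real.exp_log (by positivity), hq]
    field_simp
    norm_num
  rw [hrexp] at hconc
  have hth : 1 - (stdGaussian (EE (M + 1)) (Metric.cthickening r P)).toReal ≤ 1 / 200 := by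
    have h6 : q * (1 - (stdGaussian (EE (M + 1)) (Metric.cthickening r P)).toReal) ≤
        q * (1 / 200) := by linarith
    exact le_of_mul_le_mul_left h6 hq0
  -- the inclusion
  set T : ℝ := 105 / p with hT
  have hT0 : 0 < T := by positivity
  have hTbig : 1 + 4 * (15 + 2 * r + a) / a ≤ T := by
    have h7 : r ≤ 5 * (a / p) := by
      have := log_bd (a / p) hA1
      rw [hr]; linarith
    have h8 : 4 * (15 + 2 * r + a) / a ≤ 60 / p + 40 / p + 4 := by
      rw [div_le_iff₀ ha]
      have h9 : 60 ≤ 60 / p * a := by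
        rw [div_mul_eq_mul_div, le_div_iff₀ hp]; linarith
      have h10 : 8 * r ≤ 40 / p * a := by
        calc 8 * r ≤ 8 * (5 * (a / p)) := by linarith
          _ = 40 / p * a := by ring
      nlinarith
    have h11 : 5 ≤ 5 / p := by
      rw [le_div_iff₀ hp]; linarith
    have h12 : T = 60 / p + 40 / p + 5 / p := by
      rw [hT]; ring
    linarith
  have hincl : Metric.cthickening r P \ {x | 15 ≤ |⟪θ, x⟫_ℝ|} ⊆ {x | T⁻¹ • x ∈ V} := by
    rintro x ⟨hx, hx15⟩
    simp only [mem_ofPred_eq, not_le] at hx15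
    have hPne : P.Nonempty := by
      by_contra h
      rw [Set.not_nonempty_iff_eq_empty] at h
      rw [h] at hqP
      simp at hqP
      linarith
    have hx' : Metric.infEDist x P ≤ ENNReal.ofReal r := hx
    obtain ⟨y, hyP, hy⟩ := hPc.exists_infDist_eq_dist hPne x
    have hd : dist x y ≤ r := by
      rw [← hy, Metric.infDist]
      exact ENNReal.toReal_le_of_le_ofReal hr0 hx'
    obtain ⟨v, hv, l, hl, rfl⟩ := hyP
    obtain ⟨s, rfl⟩ := Submodule.mem_span_singleton.mp hl
    simp only at hd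
    rw [dist_eq_norm] at hd
    have hvi : |⟪θ, v⟫_ℝ| ≤ a := abs_le.mpr hv.2
    have hs : |s| ≤ 15 + r + a := by
      have e1 : ⟪θ, x - (v + s • θ)⟫_ℝ = ⟪θ, x⟫_ℝ - ⟪θ, v⟫_ℝ - s := by
        rw [inner_sub_right, inner_add_right, real_inner_smul_right, real_inner_self_eq_norm_sq, hθ]
        ring
      have e2 : |⟪θ, x - (v + s • θ)⟫_ℝ| ≤ r := by
        refine (abs_real_inner_le_norm _ _).trans ?_
        rw [hθ, one_mul]
        exact hd
      rw [e1] at e2
      have e3 := abs_le.mp e2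
      have e4 := abs_lt.mp hx15
      have e5 := abs_le.mp hvi
      rw [abs_le]
      constructor <;> linarith [e3.1, e3.2, e4.1, e4.2, e5.1, e5.2]
    have hxv : ‖x - v‖ ≤ 15 + 2 * r + a := by
      have e1 : x - v = (x - (v + s • θ)) + s • θ := by abel
      rw [e1]
      refine (norm_add_le _ _).trans ?_
      rw [norm_smul, hθ, mul_one, Real.norm_eq_abs]
      linarith
    -- `x = v + (x - v)`
    have hT1 : 0 < T - 1 := by
      have : 0 < 4 * (15 + 2 * r + a) / a := by positivity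
      linarith
    have hu : (T - 1)⁻¹ • (x - v) ∈ V := by
      apply hball
      rw [mem_ball_zero_iff, norm_smul, norm_inv, Real.norm_eq_abs, abs_of_pos hT1]
      rw [inv_mul_lt_iff₀ hT1]
      have e1 : 4 * (15 + 2 * r + a) / a ≤ T - 1 := by linarith
      rw [div_le_iff₀ ha] at e1
      have e2 : 0 < 15 + 2 * r + a := by positivity
      calc ‖x - v‖ ≤ 15 + 2 * r + a := hxv
        _ < 2 * (15 + 2 * r + a) := by linarith
        _ ≤ (T - 1) * (a / 2) := by linarith
    have h13 := hc hv.1 hu (a := T⁻¹) (b := 1 - T⁻¹) (by positivity)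
      (by
        rw [sub_nonneg]
        apply inv_le_one_of_one_le₀
        linarith) (by ring)
    show T⁻¹ • x ∈ V
    convert h13 using 1
    have e6 : (1 - T⁻¹) * (T - 1)⁻¹ = T⁻¹ := by
      field_simp
    rw [smul_smul, e6, smul_sub]
    abel
  have htail := tail θ hθ
  have hfin : (stdGaussian (EE (M + 1)) (Metric.cthickening r P)).toReal ≤
      (stdGaussian (EE (M + 1)) {x | 15 ≤ |⟪θ, x⟫_ℝ|}).toReal +
      (stdGaussian (EE (M + 1)) {x | T⁻¹ • x ∈ V}).toReal := by
    rw [← ENNReal.toReal_add (measure_ne_top _ _) (measure_ne_top _ _)]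
    apply ENNReal.toReal_mono (ENNReal.add_ne_top.mpr ⟨measure_ne_top _ _, measure_ne_top _ _⟩)
    refine le_trans (measure_mono ?_) (measure_union_le _ _)
    intro x hx
    by_cases h : x ∈ {x : EE (M + 1) | 15 ≤ |⟪θ, x⟫_ℝ|}
    · exact Or.inl h
    · exact Or.inr (hincl ⟨hx, h⟩)
  linarith

/-- **Balancing.** -/
theorem balance {M m : ℕ} (V : Set (EE (M + 1))) (hV : IsCompact V) (hc : Convex ℝ V) (p : ℝ)
    (hp : 0 < p) (hpV : p = (stdGaussian (EE (M + 1)) V).toReal)
    (hb : ∫ x in V, x ∂(stdGaussian (EE (M + 1))) = 0)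
    (u : Fin m → EE (M + 1)) (hu : ∀ i, ‖u i‖ ≤ 1) :
    ∃ ε : Fin m → ℝ, (∀ i, ε i = 1 ∨ ε i = -1) ∧
      (10500 / p)⁻¹ • (∑ i, ε i • u i) ∈ V := by
  have hd := dil V hV hc p hp hpV hb
  set T : ℝ := 105 / p with hT
  set K : Set (EE (M + 1)) := {x | T⁻¹ • x ∈ V} with hK
  have hcontK : Continuous fun x : EE (M + 1) => T⁻¹ • x := by fun_prop
  have hKc : IsClosed K := hV.isClosed.preimage hcontK
  have hKconv : Convex ℝ K := by
    intro x hx y hy s t hs ht hst
    have h1 := hc hx hy hs ht hst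
    show T⁻¹ • (s • x + t • y) ∈ V
    convert h1 using 1
    rw [smul_add, smul_comm T⁻¹ s, smul_comm T⁻¹ t]
  obtain ⟨ε, h1, h2⟩ := Pool.Agent.R755.Bal.bal K hKc hKconv hd (fun i => (100 : ℝ)⁻¹ • u i) (by
    intro i
    rw [norm_smul]
    norm_num
    have := hu i
    linarith)
  refine ⟨ε, h1, ?_⟩
  have h3 : T⁻¹ • (∑ i, ε i • (100 : ℝ)⁻¹ • u i) ∈ V := h2
  have h4 : T⁻¹ • (∑ i, ε i • (100 : ℝ)⁻¹ • u i) = (10500 / p)⁻¹ • (∑ i, ε i • u i) := by
    rw [Finset.smul_sum, Finset.smul_sum]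
    apply Finset.sum_congr rfl
    intro i _
    rw [smul_smul, smul_smul, smul_smul]
    congr 1
    rw [hT]
    field_simp
    ring
  rw [h4] at h3
  exact h3

end Pool.Agent.Helper826_VB
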