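import Pool.Agent.Helper826_VB.B

/-!
# Symmetric intervals
-/

set_option autoImplicit false

namespace Pool.Agent.Helper826_VB

open MeasureTheory ProbabilityTheory Set
open scoped ENNReal Pointwise InnerProductSpace
open Pool.Agent.H460BZ (φ φ_eq φ_cont φ_nonneg)

theorem phi_ge (x : ℝ) (hx : |x| ≤ 1) : 1 / 5 ≤ φ x := by
  rw [φ_eq]
  have h1 : √(2 * Real.pi) ≤ 3 := by
    apply Real.sqrt_le_iff.mpr
    constructor
    · norm_num
    · have := Real.pi_lt_four; nlinarith [Real.pi_lt_d2]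
  have h2 : (1 : ℝ) / 3 ≤ (√(2 * Real.pi))⁻¹ := by
    rw [one_div]
    exact inv_anti₀ (by positivity) h1
  have h3 : (3 : ℝ) / 5 ≤ Real.exp (-(x ^ 2 / 2)) := by
    have h4 : -(1 / 2 : ℝ) ≤ -(x ^ 2 / 2) := by
      have : x ^ 2 ≤ 1 := by
        rw [← sq_abs]; nlinarith [abs_nonneg x]
      linarith
    refine le_trans ?_ (Real.exp_le_exp.mpr h4)
    rw [Real.exp_neg, show (3 : ℝ) / 5 = (5 / 3)⁻¹ by norm_num]
    apply inv_anti₀ (Real.exp_pos _)
    have h5 : Real.exp (1 / 2) ^ 2 = Real.exp 1 := by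
      rw [← Real.exp_nat_mul]; norm_num
    have h6 : Real.exp (1 / 2) ^ 2 ≤ (5 / 3) ^ 2 := by
      rw [h5]
      have := Real.exp_one_lt_d9
      linarith
    exact (pow_le_pow_iff_left₀ (Real.exp_pos _).le (by norm_num) (by norm_num)).mp h6
  calc (1 : ℝ) / 5 = 1 / 3 * (3 / 5) := by norm_num
    _ ≤ (√(2 * Real.pi))⁻¹ * Real.exp (-(x ^ 2 / 2)) :=
      mul_le_mul h2 h3 (by norm_num) (by positivity)

noncomputable def F (a : ℝ) : ℝ := ∫ x in (-a)..a, φ x

theorem F_cont : Continuous F := by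
  have h1 : Continuous fun b : ℝ => ∫ x in (0 : ℝ)..b, φ x :=
    intervalIntegral.continuous_primitive (fun a b => φ_cont.intervalIntegrable a b) 0
  have h2 : F = fun a => (∫ x in (0 : ℝ)..a, φ x) - ∫ x in (0 : ℝ)..(-a), φ x := by
    funext a
    unfold F
    rw [intervalIntegral.integral_interval_sub_left (φ_cont.intervalIntegrable _ _)
      (φ_cont.intervalIntegrable _ _)]
  rw [h2]
  exact h1.sub (h1.comp continuous_neg)

theorem F_ge (a : ℝ) (h0 : 0 ≤ a) (h1 : a ≤ 1) : 2 / 5 * a ≤ F a := by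
  unfold F
  have h3 : (∫ x in (-a)..a, (1 / 5 : ℝ)) ≤ ∫ x in (-a)..a, φ x := by
    apply intervalIntegral.integral_mono_on (by linarith)
    · exact intervalIntegrable_const
    · exact φ_cont.intervalIntegrable _ _
    · intro x hx
      apply phi_ge
      rw [abs_le]
      constructor <;> linarith [hx.1, hx.2]
  rw [intervalIntegral.integral_const] at h3
  simp only [smul_eq_mul] at h3
  linarith

theorem F_surj (p : ℝ) (h0 : 0 < p) (h1 : p ≤ 2 / 5) : ∃ a, 0 < a ∧ a ≤ 1 ∧ F a = p := by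
  have hF0 : F 0 = 0 := by
    unfold F; simp
  have hF1 : 2 / 5 ≤ F 1 := by
    have := F_ge 1 (by norm_num) le_rfl
    linarith
  obtain ⟨a, ha, hap⟩ := intermediate_value_Icc (zero_le_one' ℝ) F_cont.continuousOn
    (show p ∈ Icc (F 0) (F 1) by rw [hF0]; exact ⟨h0.le, h1.trans hF1⟩)
  refine ⟨a, ?_, ha.2, hap⟩
  rcases ha.1.lt_or_eq with h | h
  · exact h
  · exfalso
    rw [← h, hF0] at hap
    linarith

theorem norm_one_dim (x : EE 1) : ‖x‖ = |x 0| := by
  rw [EuclideanSpace.norm_eq]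
  simp [Real.sqrt_sq_eq_abs]

theorem ball_meas (a : ℝ) (ha : 0 ≤ a) :
    (stdGaussian (EE 1)).real (Metric.closedBall 0 a) = F a := by
  have hθ : ‖(EuclideanSpace.single 0 1 : EE 1)‖ = 1 := by simp
  have h1 := Pool.Agent.R755.Bal.map_inner (EuclideanSpace.single 0 1 : EE 1)
  rw [hθ] at h1
  norm_num at h1
  have hmeas : Measurable fun x : EE 1 => x 0 := by fun_prop
  have h2 : Metric.closedBall (0 : EE 1) a = (fun x : EE 1 => x 0) ⁻¹' (Icc (-a) a) := by
    ext x
    rw [mem_closedBall_zero_iff, norm_one_dim, mem_preimage, mem_Icc, abs_le]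
  have h3 : (fun x : EE 1 => x 0) = fun x : EE 1 => ⟪(EuclideanSpace.single 0 1 : EE 1), x⟫_ℝ := by
    funext x
    rw [EuclideanSpace.inner_single_left]
    simp
  have h4 : (stdGaussian (EE 1)).map (fun x : EE 1 => x 0) = gaussianReal 0 1 := by
    rw [h3]; exact h1
  rw [Measure.real, h2, ← Measure.map_apply hmeas measurableSet_Icc]
  rw [h4]
  rw [Pool.Agent.H460BZ.meas_Icc _ _ (by linarith)]
  rw [ENNReal.toReal_ofReal]
  · rfl
  · exact intervalIntegral.integral_nonneg (by linarith) fun x _ => φ_nonneg x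

theorem ball_bary {n : ℕ} (a : ℝ) :
    ∫ x in Metric.closedBall (0 : EE n) a, x ∂(stdGaussian (EE n)) = 0 := by
  have h1 : (stdGaussian (EE n)).map (LinearIsometryEquiv.neg ℝ : EE n ≃ₗᵢ[ℝ] EE n) =
      stdGaussian (EE n) := stdGaussian_map _
  have hmp : MeasurePreserving (LinearIsometryEquiv.neg ℝ : EE n ≃ₗᵢ[ℝ] EE n)
      (stdGaussian (EE n)) (stdGaussian (EE n)) :=
    ⟨(LinearIsometryEquiv.continuous _).measurable, h1⟩
  have h2 := hmp.setIntegral_preimage_emb
    (LinearIsometryEquiv.toHomeomorph (LinearIsometryEquiv.neg ℝ : EE n ≃ₗᵢ[ℝ] EE n)).measurableEmbedding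
    (fun x => x) (Metric.closedBall (0 : EE n) a)
  have h3 : (LinearIsometryEquiv.neg ℝ : EE n ≃ₗᵢ[ℝ] EE n) ⁻¹' (Metric.closedBall (0 : EE n) a) =
      Metric.closedBall (0 : EE n) a := by
    ext x
    simp
  rw [h3] at h2
  have h4 : ∫ x in Metric.closedBall (0 : EE n) a,
      (LinearIsometryEquiv.neg ℝ : EE n ≃ₗᵢ[ℝ] EE n) x ∂(stdGaussian (EE n)) =
      -∫ x in Metric.closedBall (0 : EE n) a, x ∂(stdGaussian (EE n)) := by
    rw [← integral_neg]
    rfl
  rw [h4] at h2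
  set I := ∫ x in Metric.closedBall (0 : EE n) a, x ∂(stdGaussian (EE n)) with hI
  have h5 : (2 : ℝ) • I = 0 := by
    rw [two_smul]
    nth_rewrite 1 [← h2]
    simp
  exact (smul_eq_zero.mp h5).resolve_left two_ne_zero

end Pool.Agent.Helper826_VB
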